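import Pool.Agent.H110.NetArith

/-!
# Common unfoldings of the regular tetrahedron and another Platonic solid

Let `P` be a polygon in the plane which folds to a regular tetrahedron and also to a cube, a
regular octahedron, a regular dodecahedron or a regular icosahedron `Q` (cuts anywhere, the two
sizes are free).  Cut `P` into triangles in two ways, so that each triangulation folds edge to edge
onto a triangulation of the surface of the tetrahedron, respectively of `Q` (every unfolding has
such triangulations: take a common refinement of the cuts and the edges of the polyhedron).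

**Theorem.** There are two sides of `P` such that on both of them the two triangulations have
different edges, and such that
* for the cube and the dodecahedron, the angle between the two sides is not a rational multiple of
  `π`;
* for the octahedron and the icosahedron, the directions of the two sides are not related by an
  element `a + b ω` with rational `a, b` (in particular the angle is not a multiple of `60°`).

Consequences: the regular tetrahedron has no common unfolding with another Platonic solid for
which one finite subdivision of the boundary of `P` serves for both foldings; no polygon all of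
whose angles are rational multiples of `π` folds to a regular tetrahedron and to a cube or a
regular dodecahedron; and no polygon all of whose angles are multiples of `60°` folds to a regular
tetrahedron and to a regular octahedron or icosahedron.
-/

set_option autoImplicit false

namespace Pool.Agent.Results.MP_6e7851_co.TetrahedronObstruction

open Pool.Agent.H110.Net

/-- The number of sides of a face and the number of faces of the cube, the octahedron, the
dodecahedron and the icosahedron. -/
def IsOtherSolid (k N : ℕ) : Prop :=
  (k = 4 ∧ N = 6) ∨ (k = 3 ∧ N = 8) ∨ (k = 5 ∧ N = 12) ∨ (k = 3 ∧ N = 20)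

/-- The polygon `p` is a net, `A`, of a surface glued from four equilateral triangles (of side
length `s₁`) and a net, `B`, of a surface glued from `N` regular `k`-gons (of side length `s₂`). -/
theorem result {k N : ℕ} (h : IsOtherSolid k N) (S₁ : Surface 3 4) (S₂ : Surface k N)
    (s₁ s₂ : ℝ) (hs₁ : 0 < s₁) (hs₂ : 0 < s₂) {n : ℕ} (hn : 0 < n) (p : ZMod n → ℂ)
    (A : NetOn S₁ s₁ p) (B : NetOn S₂ s₂ p) :
    ∃ i j, A.edgesOn i ≠ B.edgesOn i ∧ A.edgesOn j ≠ B.edgesOn j ∧
      (k ≠ 3 → ∀ (r : ℚ) (x : ℝ),
        p (j + 1) - p j ≠ x * Complex.exp (Real.pi * Complex.I * r) * (p (i + 1) - p i)) ∧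
      (k = 3 → ∀ (a b : ℚ) (x : ℝ),
        p (j + 1) - p j ≠ x * (a + b * Complex.exp (2 * Real.pi * Complex.I / 3)) *
          (p (i + 1) - p i)) := by
  have : NeZero n := ⟨hn.ne'⟩
  have hp₁ : IsPlatonic 3 4 := by simp [IsPlatonic]
  have hp₂ : IsPlatonic k N := by rcases h with h | h | h | h <;> simp [IsPlatonic, h]
  by_cases hk : 3 = k
  · subst hk
    have h3 : N = 8 ∨ N = 20 := by rcases h with h | h | h | h <;> omega
    have hne : 4 ≠ N := by omega
    obtain ⟨i, hi, -⟩ := differ_hexagonal (Or.inl rfl) (Or.inr h3) hne hs₁ A B 1 one_ne_zero
    obtain ⟨j, hj, hj'⟩ := differ_hexagonal (Or.inl rfl) (Or.inr h3) hne hs₁ A B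
      (p (i + 1) - p i) (side_ne A i)
    refine ⟨i, j, hi, hj, fun h => absurd rfl h, fun _ a b x => ?_⟩
    have := hj' a b x
    unfold rt at this
    exact_mod_cast this
  · obtain ⟨i, hi, -⟩ := differ_irrational hp₁ hp₂ hk hs₁ hs₂ A B 1 one_ne_zero
    obtain ⟨j, hj, hj'⟩ := differ_irrational hp₁ hp₂ hk hs₁ hs₂ A B (p (i + 1) - p i)
      (side_ne A i)
    exact ⟨i, j, hi, hj, fun _ => hj', fun h => absurd h.symm hk⟩

end Pool.Agent.Results.MP_6e7851_co.TetrahedronObstruction
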